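import Mathlib

/-!
# Skew operators and closed two-forms: the algebraic identity
-/

open Set Metric MeasureTheory Filter Topology
open scoped ContDiff NNReal

noncomputable section

namespace Pool.Agent.H85.KA

variable {E : Type*} [NormedAddCommGroup E] [InnerProductSpace ℝ E] {ι : Type*} [Fintype ι]

/-- the trace of an operator in an orthonormal basis -/
def tr (b : OrthonormalBasis ι ℝ E) (A : E →L[ℝ] E) : ℝ := ∑ k, inner ℝ (b k) (A (b k))

/-- skew operators -/
def Anti (A : E →L[ℝ] E) : Prop := ∀ u v, inner ℝ (A u) v = - inner ℝ u (A v)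

/-- the derivative of a field of skew operators is that of a closed two-form -/
def Cl (c : E →L[ℝ] E →L[ℝ] E) : Prop :=
  ∀ u v w, inner ℝ (c u v) w + inner ℝ (c v w) u + inner ℝ (c w u) v = 0

lemma tr_add (b : OrthonormalBasis ι ℝ E) (A B : E →L[ℝ] E) : tr b (A + B) = tr b A + tr b B := by
  simp [tr, inner_add_right, Finset.sum_add_distrib]

lemma tr_smul (b : OrthonormalBasis ι ℝ E) (c : ℝ) (A : E →L[ℝ] E) : tr b (c • A) = c * tr b A := by
  simp [tr, inner_smul_right, Finset.mul_sum]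

lemma tr_id (b : OrthonormalBasis ι ℝ E) : tr b (ContinuousLinearMap.id ℝ E) = Fintype.card ι := by
  simp [tr]

lemma tr_eq_trace (b : OrthonormalBasis ι ℝ E) (A : E →L[ℝ] E) :
    tr b A = LinearMap.trace ℝ E (A : E →ₗ[ℝ] E) := by
  classical
  rw [LinearMap.trace_eq_matrix_trace ℝ b.toBasis, Matrix.trace, tr]
  refine Finset.sum_congr rfl fun i _ => ?_
  rw [Matrix.diag_apply, LinearMap.toMatrix_apply]
  simp [OrthonormalBasis.repr_apply_apply]

lemma sum_inner (b : OrthonormalBasis ι ℝ E) (x y : E) :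
    ∑ j, inner ℝ x (b j) * inner ℝ (b j) y = inner ℝ x y := b.sum_inner_mul_inner x y

lemma alg (b : OrthonormalBasis ι ℝ E) {Q : E →L[ℝ] E} {c : E →L[ℝ] E →L[ℝ] E} (hQ : Anti Q)
    (hc : ∀ u, Anti (c u)) (hcl : Cl c) (y : E) :
    2 * ∑ k, inner ℝ (b k) (Q (c (b k) y)) = tr b (Q ∘L c y) := by
  set q : ι → ι → ℝ := fun k j => inner ℝ (Q (b k)) (b j) with hq
  have hqa : ∀ k j, q k j = - q j k := fun k j => by
    rw [hq]; dsimp only
    rw [hQ, real_inner_comm]
  have e1 : ∀ k, inner ℝ (b k) (Q (c (b k) y)) = - ∑ j, q k j * inner ℝ (b j) (c (b k) y) := by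
    intro k
    rw [sum_inner b, hQ, neg_neg]
  have e2 : ∀ k, inner ℝ (b k) (Q (c y (b k))) = - ∑ j, q k j * inner ℝ (b j) (c y (b k)) := by
    intro k
    rw [sum_inner b, hQ, neg_neg]
  have e3 : ∑ k, ∑ j, q k j * inner ℝ (b j) (c (b k) y) =
      ∑ k, ∑ j, - (q k j * inner ℝ (b k) (c (b j) y)) := by
    rw [Finset.sum_comm]
    refine Finset.sum_congr rfl fun k _ => Finset.sum_congr rfl fun j _ => ?_
    rw [hqa j k]; ring
  have e4 : ∀ k j, inner ℝ (b j) (c (b k) y) - inner ℝ (b k) (c (b j) y) =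
      inner ℝ (b j) (c y (b k)) := by
    intro k j
    have h1 := hcl (b k) y (b j)
    have h2 : inner ℝ (c (b j) (b k)) y = - inner ℝ (b k) (c (b j) y) := hc _ _ _
    have h3 : inner ℝ (c y (b j)) (b k) = - inner ℝ (b j) (c y (b k)) := hc _ _ _
    rw [real_inner_comm (c (b k) y) (b j)]
    linarith
  have e5 : 2 * ∑ k, ∑ j, q k j * inner ℝ (b j) (c (b k) y) =
      ∑ k, ∑ j, q k j * inner ℝ (b j) (c y (b k)) := by
    rw [two_mul]
    conv_lhs => enter [2]; rw [e3]
    rw [← Finset.sum_add_distrib]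
    refine Finset.sum_congr rfl fun k _ => ?_
    rw [← Finset.sum_add_distrib]
    refine Finset.sum_congr rfl fun j _ => ?_
    rw [← e4 k j]; ring
  simp only [tr, ContinuousLinearMap.comp_apply, e1, e2, Finset.sum_neg_distrib]
  rw [mul_neg, e5]

end Pool.Agent.H85.KA
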