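import Mathlib

/-!
# The integral over the unit ball of a derivative of a function vanishing on the sphere
-/

open Set Metric MeasureTheory Filter Topology
open scoped ContDiff NNReal

noncomputable section

namespace Pool.Agent.H85.KA

variable {E : Type*} [NormedAddCommGroup E] [InnerProductSpace ℝ E] [FiniteDimensional ℝ E]

lemma lip_ball {f : E → ℝ} (hf : ∀ x ∈ closedBall (0 : E) 1, ContDiffAt ℝ 1 f x) :
    ∃ K : ℝ≥0, LipschitzOnWith K f (closedBall (0 : E) 1) := by
  have hc : ContinuousOn (fun x => ‖fderiv ℝ f x‖₊) (closedBall (0 : E) 1) := fun x hx =>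
    ((hf x hx).fderiv_right (m := 0) (by norm_num)).continuousAt.nnnorm.continuousWithinAt
  obtain ⟨K, hK⟩ := (isCompact_closedBall (0 : E) 1).bddAbove_image hc
  refine ⟨K, (convex_closedBall (0 : E) 1).lipschitzOnWith_of_nnnorm_fderiv_le
    (fun x hx => (hf x hx).differentiableAt (by norm_num)) fun x hx => hK ⟨x, hx, rfl⟩⟩

omit [FiniteDimensional ℝ E] in
lemma exists_cross {x y : E} (hx : x ∈ closedBall (0 : E) 1) (hy : y ∉ closedBall (0 : E) 1) :
    ∃ z ∈ sphere (0 : E) 1, dist x z ≤ dist x y := by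
  have hx' : ‖x‖ ≤ 1 := by simpa using hx
  have hy' : 1 < ‖y‖ := by simpa using hy
  have hc : ContinuousOn (fun t : ℝ => ‖x + t • (y - x)‖) (Icc 0 1) := by fun_prop
  have h1 : (1 : ℝ) ∈ Icc ((fun t : ℝ => ‖x + t • (y - x)‖) 0) ((fun t : ℝ => ‖x + t • (y - x)‖) 1) := by
    constructor
    · simpa using hx'
    · simpa using hy'.le
  obtain ⟨t, ht, hz⟩ := intermediate_value_Icc zero_le_one hc h1
  refine ⟨x + t • (y - x), by simpa using hz, ?_⟩
  rw [dist_eq_norm, dist_eq_norm, sub_add_cancel_left, norm_neg, norm_smul, Real.norm_eq_abs,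
    abs_of_nonneg ht.1, norm_sub_rev y x]
  calc t * ‖x - y‖ ≤ 1 * ‖x - y‖ := mul_le_mul_of_nonneg_right ht.2 (norm_nonneg _)
    _ = ‖x - y‖ := one_mul _

lemma lip_indicator {f : E → ℝ} (hf : ∀ x ∈ closedBall (0 : E) 1, ContDiffAt ℝ 1 f x)
    (h0 : ∀ x ∈ sphere (0 : E) 1, f x = 0) :
    ∃ K : ℝ≥0, LipschitzWith K (indicator (closedBall (0 : E) 1) f) := by
  obtain ⟨K, hK⟩ := lip_ball hf
  refine ⟨K, LipschitzWith.of_dist_le_mul fun x y => ?_⟩
  have key : ∀ x ∈ closedBall (0 : E) 1, ∀ y ∉ closedBall (0 : E) 1,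
      |f x| ≤ K * dist x y := by
    intro x hx y hy
    obtain ⟨z, hz, hzd⟩ := exists_cross hx hy
    have h1 := hK.dist_le_mul x hx z (sphere_subset_closedBall hz)
    rw [h0 z hz, Real.dist_eq, sub_zero] at h1
    exact h1.trans (mul_le_mul_of_nonneg_left hzd K.2)
  by_cases hx : x ∈ closedBall (0 : E) 1 <;> by_cases hy : y ∈ closedBall (0 : E) 1
  · rw [indicator_of_mem hx, indicator_of_mem hy]; exact hK.dist_le_mul x hx y hy
  · rw [indicator_of_mem hx, indicator_of_notMem hy, Real.dist_eq, sub_zero]; exact key x hx y hy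
  · rw [indicator_of_notMem hx, indicator_of_mem hy, Real.dist_eq, zero_sub, abs_neg, dist_comm]
    exact key y hy x hx
  · rw [indicator_of_notMem hx, indicator_of_notMem hy, dist_self]; positivity

variable [MeasurableSpace E] [BorelSpace E]

/-- the integral over the ball of a directional derivative of a function which vanishes on the
sphere -/
lemma int_deriv (hn : 0 < Module.finrank ℝ E) {f : E → ℝ}
    (hf : ∀ x ∈ closedBall (0 : E) 1, ContDiffAt ℝ 1 f x)
    (h0 : ∀ x ∈ sphere (0 : E) 1, f x = 0) (v : E) :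
    ∫ x in closedBall (0 : E) 1, fderiv ℝ f x v = 0 := by
  obtain ⟨K, hK⟩ := lip_indicator hf h0
  set F := indicator (closedBall (0 : E) 1) f with hF
  have hcs : HasCompactSupport F :=
    HasCompactSupport.intro (isCompact_closedBall (0 : E) 1) fun x hx => indicator_of_notMem hx _
  have h1 := LipschitzWith.integral_lineDeriv_mul_eq (μ := (volume : Measure E))
    (LipschitzWith.const (1 : ℝ) (α := E)) hK hcs (-v)
  have h2 : ∀ x : E, lineDeriv ℝ (fun _ : E => (1 : ℝ)) x (-v) = 0 := fun x => by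
    simp [lineDeriv]
  simp only [h2, zero_mul, integral_zero, neg_neg, mul_one] at h1
  have h3 : ∀ᵐ x ∂(volume : Measure E), x ∉ sphere (0 : E) 1 := by
    have : Nontrivial E := Module.nontrivial_of_finrank_pos (R := ℝ) hn
    exact measure_eq_zero_iff_ae_notMem.1 (Measure.addHaar_sphere (volume : Measure E) (0 : E) 1)
  rw [← integral_indicator measurableSet_closedBall, h1]
  refine integral_congr_ae ?_
  filter_upwards [h3] with x hx
  by_cases hxb : x ∈ closedBall (0 : E) 1
  · rw [indicator_of_mem hxb]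
    have hlt : x ∈ ball (0 : E) 1 := by
      have h4 : ‖x‖ ≤ 1 := by simpa using hxb
      have h5 : ‖x‖ ≠ 1 := by simpa using hx
      simpa using lt_of_le_of_ne h4 h5
    have h6 : F =ᶠ[𝓝 x] f := by
      filter_upwards [isOpen_ball.mem_nhds hlt] with y hy
      exact indicator_of_mem (ball_subset_closedBall hy) _
    rw [h6.lineDeriv_eq, ((hf x hxb).differentiableAt (by norm_num)).lineDeriv_eq_fderiv]
  · rw [indicator_of_notMem hxb]
    have h6 : F =ᶠ[𝓝 x] fun _ => 0 := by
      filter_upwards [isClosed_closedBall.isOpen_compl.mem_nhds hxb] with y hy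
      exact indicator_of_notMem hy _
    rw [h6.lineDeriv_eq]
    simp [lineDeriv]

end Pool.Agent.H85.KA
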