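import Pool.Agent.H85.KA.Alg

/-!
# The derivative of a determinant and the divergence of the weighted inverse of a closed two-form
-/

open Set Metric MeasureTheory Filter Topology
open scoped ContDiff NNReal

noncomputable section

set_option maxSynthPendingDepth 3

namespace Pool.Agent.H85.KA

section matrix

variable {ι : Type*} [Fintype ι] [DecidableEq ι]

lemma hasDerivAt_det_mat {M : ℝ → Matrix ι ι ℝ} {M' : Matrix ι ι ℝ} {t : ℝ}
    (h : ∀ i j, HasDerivAt (fun s => M s i j) (M' i j) t) :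
    HasDerivAt (fun s => (M s).det) (((M t).adjugate * M').trace) t := by
  have h1 : HasDerivAt (fun s => (M s).det)
      (∑ σ : Equiv.Perm ι, (Equiv.Perm.sign σ : ℤ) • ∑ i, (∏ j ∈ Finset.univ.erase i, M t (σ j) j) • M' (σ i) i) t := by
    have : (fun s => (M s).det) = fun s => ∑ σ : Equiv.Perm ι, (Equiv.Perm.sign σ : ℤ) • ∏ i, M s (σ i) i := by
      funext s
      rw [Matrix.det_apply]
      rfl
    rw [this]
    refine HasDerivAt.fun_sum fun σ _ => ?_
    simp only [zsmul_eq_mul]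
    exact (HasDerivAt.fun_finsetProd fun i _ => h (σ i) i).const_mul _
  refine h1.congr_deriv ?_
  have h2 : ((M t).adjugate * M').trace = ∑ i, ((M t).updateCol i (fun k => M' k i)).det := by
    rw [Matrix.trace]
    refine Finset.sum_congr rfl fun i _ => ?_
    rw [← Matrix.cramer_apply, Matrix.cramer_eq_adjugate_mulVec]
    rfl
  rw [h2]
  simp only [Matrix.det_apply, Finset.smul_sum]
  rw [Finset.sum_comm]
  refine Finset.sum_congr rfl fun i _ => Finset.sum_congr rfl fun σ _ => ?_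
  rw [← Finset.mul_prod_erase Finset.univ _ (Finset.mem_univ i), Matrix.updateCol_self]
  have : ∏ j ∈ Finset.univ.erase i, (M t).updateCol i (fun k => M' k i) (σ j) j =
      ∏ j ∈ Finset.univ.erase i, M t (σ j) j := by
    refine Finset.prod_congr rfl fun j hj => ?_
    rw [Matrix.updateCol_ne (Finset.ne_of_mem_erase hj)]
  rw [this, smul_eq_mul, mul_comm]
  rfl

end matrix

variable {E : Type*} [NormedAddCommGroup E] [InnerProductSpace ℝ E] [FiniteDimensional ℝ E]
  {ι : Type*} [Fintype ι]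

/-- the matrix of an operator -/
def mat (b : OrthonormalBasis ι ℝ E) (A : E →L[ℝ] E) : Matrix ι ι ℝ :=
  Matrix.of fun i j => inner ℝ (b i) (A (b j))

variable [DecidableEq ι]

omit [FiniteDimensional ℝ E] in
lemma mat_eq (b : OrthonormalBasis ι ℝ E) (A : E →L[ℝ] E) :
    mat b A = LinearMap.toMatrix b.toBasis b.toBasis (A : E →ₗ[ℝ] E) := by
  ext i j
  rw [LinearMap.toMatrix_apply]
  simp [mat, OrthonormalBasis.repr_apply_apply]

omit [FiniteDimensional ℝ E] in
lemma mat_mul (b : OrthonormalBasis ι ℝ E) (A B : E →L[ℝ] E) : mat b (A ∘L B) = mat b A * mat b B := by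
  rw [mat_eq, mat_eq, mat_eq, ← LinearMap.toMatrix_comp]
  rfl

omit [FiniteDimensional ℝ E] in
lemma mat_det (b : OrthonormalBasis ι ℝ E) (A : E →L[ℝ] E) : (mat b A).det = A.det := by
  rw [mat_eq, LinearMap.det_toMatrix]

omit [FiniteDimensional ℝ E] [DecidableEq ι] in
lemma mat_trace (b : OrthonormalBasis ι ℝ E) (A : E →L[ℝ] E) : (mat b A).trace = tr b A := rfl

omit [FiniteDimensional ℝ E] in
lemma mat_one (b : OrthonormalBasis ι ℝ E) : mat b (ContinuousLinearMap.id ℝ E) = 1 := by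
  ext i j
  rw [mat, Matrix.of_apply, Matrix.one_apply]
  exact orthonormal_iff_ite.1 b.orthonormal i j

omit [FiniteDimensional ℝ E] in
/-- Jacobi's formula -/
lemma hasDerivAt_det_clm (b : OrthonormalBasis ι ℝ E) {A : ℝ → E →L[ℝ] E} {A' Q : E →L[ℝ] E} {t : ℝ}
    (h : HasDerivAt A A' t) (hQ : Q ∘L A t = ContinuousLinearMap.id ℝ E) :
    HasDerivAt (fun s => (A s).det) ((A t).det * tr b (Q ∘L A')) t := by
  have h1 := hasDerivAt_det_mat (M := fun s => mat b (A s)) (M' := mat b A') (t := t) fun i j => by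
    have h2 := h.clm_apply (hasDerivAt_const t (b j))
    have h3 := (hasDerivAt_const t (b i)).inner ℝ h2
    simpa [mat] using h3
  simp only [mat_det] at h1
  refine h1.congr_deriv ?_
  have h4 : mat b Q * mat b (A t) = 1 := by rw [← mat_mul, hQ, mat_one]
  have h5 : (mat b (A t)).adjugate = (A t).det • mat b Q := by
    have h6 : mat b (A t) * mat b Q = 1 := mul_eq_one_comm.1 h4
    calc (mat b (A t)).adjugate = (mat b (A t)).adjugate * (mat b (A t) * mat b Q) := by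
          rw [h6, mul_one]
      _ = (A t).det • mat b Q := by
          rw [← mul_assoc, Matrix.adjugate_mul, mat_det, Matrix.smul_mul, one_mul]
  rw [h5, Matrix.smul_mul, Matrix.trace_smul, ← mat_mul, mat_trace, smul_eq_mul]

omit [FiniteDimensional ℝ E] [DecidableEq ι] in
lemma contDiffAt_det (b : OrthonormalBasis ι ℝ E) {Om : E → E →L[ℝ] E} {x : E}
    (h : ContDiffAt ℝ 1 Om x) : ContDiffAt ℝ 1 (fun y => (Om y).det) x := by
  classical
  have h1 : (fun y => (Om y).det) = fun y => ∑ σ : Equiv.Perm ι,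
      ((Equiv.Perm.sign σ : ℤ) : ℝ) * ∏ i, inner ℝ (b (σ i)) (Om y (b i)) := by
    funext y
    rw [← mat_det b, Matrix.det_apply]
    refine Finset.sum_congr rfl fun σ _ => ?_
    rw [← zsmul_eq_mul]
    rfl
  rw [h1]
  refine ContDiffAt.sum fun σ _ => contDiffAt_const.mul ?_
  refine contDiffAt_prod fun i _ => ?_
  exact contDiffAt_const.inner ℝ (h.clm_apply contDiffAt_const)

omit [FiniteDimensional ℝ E] in
lemma det_ne (b : OrthonormalBasis ι ℝ E) {A Q : E →L[ℝ] E} (hQ : Q ∘L A = ContinuousLinearMap.id ℝ E) :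
    A.det ≠ 0 := by
  intro h
  have h4 : mat b Q * mat b A = 1 := by rw [← mat_mul, hQ, mat_one]
  have h5 := congrArg Matrix.det h4
  rw [Matrix.det_mul, mat_det, mat_det, h, mul_zero, Matrix.det_one] at h5
  exact zero_ne_one h5

/-- the density -/
def pf (A : E →L[ℝ] E) : ℝ := √|A.det|

omit [FiniteDimensional ℝ E] [DecidableEq ι] in
lemma contDiffAt_pf (b : OrthonormalBasis ι ℝ E) {Om : E → E →L[ℝ] E} {x : E}
    (h : ContDiffAt ℝ 1 Om x) (h0 : (Om x).det ≠ 0) : ContDiffAt ℝ 1 (fun y => pf (Om y)) x :=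
  ((contDiffAt_det b h).abs h0).sqrt (abs_ne_zero.2 h0)

omit [FiniteDimensional ℝ E] in
lemma fderiv_pf (b : OrthonormalBasis ι ℝ E) {Om : E → E →L[ℝ] E} {x : E} {Q : E →L[ℝ] E}
    (h : ContDiffAt ℝ 1 Om x) (hQ : Q ∘L Om x = ContinuousLinearMap.id ℝ E) (v : E) :
    fderiv ℝ (fun y => pf (Om y)) x v = 1 / 2 * pf (Om x) * tr b (Q ∘L fderiv ℝ Om x v) := by
  have h0 := det_ne b hQ
  have hl : HasDerivAt (fun s : ℝ => x + s • v) v 0 := by
    simpa using ((hasDerivAt_id (0 : ℝ)).smul_const v).const_add x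
  have e0 : x + (0 : ℝ) • v = x := by simp
  have h1 : HasDerivAt (fun s : ℝ => pf (Om (x + s • v))) (fderiv ℝ (fun y => pf (Om y)) x v) 0 := by
    have := ((contDiffAt_pf b h h0).differentiableAt (by norm_num)).hasFDerivAt
    rw [← e0] at this
    have h2 := this.comp_hasDerivAt (0 : ℝ) hl
    rw [e0] at h2
    exact h2
  have h2 : HasDerivAt (fun s : ℝ => Om (x + s • v)) (fderiv ℝ Om x v) 0 := by
    have := (h.differentiableAt (by norm_num)).hasFDerivAt
    rw [← e0] at this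
    have h2 := this.comp_hasDerivAt (0 : ℝ) hl
    rw [e0] at h2
    exact h2
  have h3 := hasDerivAt_det_clm b h2 (Q := Q) (by rw [e0]; exact hQ)
  have h4 : HasDerivAt (fun s : ℝ => |(Om (x + s • v)).det|)
      (SignType.sign ((Om (x + (0 : ℝ) • v)).det) *
        ((Om (x + (0 : ℝ) • v)).det * tr b (Q ∘L fderiv ℝ Om x v))) 0 :=
    (hasDerivAt_abs (by rw [e0]; exact h0)).comp (0 : ℝ) h3
  have h5 := h4.sqrt (by rw [e0]; exact abs_ne_zero.2 h0)
  have h6 := h1.unique h5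
  rw [h6, e0, ← mul_assoc, sign_mul_self, pf]
  have h7 : 0 < √|(Om x).det| := Real.sqrt_pos.2 (abs_pos.2 h0)
  have h8 := Real.sq_sqrt (abs_nonneg (Om x).det)
  field_simp
  rw [h8, mul_comm]

/-- the weighted inverse of a field of operators -/
def wt (Om : E → E →L[ℝ] E) (y : E) : E →L[ℝ] E := pf (Om y) • Ring.inverse (Om y)

omit [DecidableEq ι] in
lemma contDiffAt_wt (b : OrthonormalBasis ι ℝ E) {Om : E → E →L[ℝ] E} {x : E}
    (h : ContDiffAt ℝ 1 Om x) (hu : IsUnit (Om x)) : ContDiffAt ℝ 1 (wt Om) x := by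
  classical
  obtain ⟨u, hu⟩ := hu
  have hQ : (↑u⁻¹ : E →L[ℝ] E) ∘L Om x = ContinuousLinearMap.id ℝ E := by
    rw [← hu]; exact u.inv_mul
  refine (contDiffAt_pf b h (det_ne b hQ)).smul ?_
  have h1 : ContDiffAt ℝ 1 Ring.inverse (Om x) := by
    rw [← hu]; exact contDiffAt_ringInverse ℝ u
  exact h1.comp x h

lemma fderiv_wt (b : OrthonormalBasis ι ℝ E) {Om : E → E →L[ℝ] E} {x : E}
    (h : ContDiffAt ℝ 1 Om x) (u : (E →L[ℝ] E)ˣ) (hu : (u : E →L[ℝ] E) = Om x) (v : E) :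
    fderiv ℝ (wt Om) x v = (1 / 2 * pf (Om x) * tr b ((↑u⁻¹ : E →L[ℝ] E) ∘L fderiv ℝ Om x v)) •
      (↑u⁻¹ : E →L[ℝ] E) - pf (Om x) • ((↑u⁻¹ : E →L[ℝ] E) ∘L fderiv ℝ Om x v ∘L (↑u⁻¹ : E →L[ℝ] E)) := by
  have hQ : (↑u⁻¹ : E →L[ℝ] E) ∘L Om x = ContinuousLinearMap.id ℝ E := by
    rw [← hu]; exact u.inv_mul
  have h1 : HasFDerivAt Ring.inverse
      (-ContinuousLinearMap.mulLeftRight ℝ (E →L[ℝ] E) ↑u⁻¹ ↑u⁻¹) (Om x) := by
    rw [← hu]; exact hasFDerivAt_ringInverse u
  have h2 := h1.comp x (h.differentiableAt (by norm_num)).hasFDerivAt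
  have h3 := ((contDiffAt_pf b h (det_ne b hQ)).differentiableAt (by norm_num)).hasFDerivAt
  have h4 := h3.smul h2
  have h5 : fderiv ℝ (wt Om) x = _ := h4.fderiv
  have h6 : Ring.inverse (Om x) = (↑u⁻¹ : E →L[ℝ] E) := by rw [← hu]; exact Ring.inverse_unit u
  rw [h5]
  simp only [Function.comp_apply, h6, add_apply, smul_apply,
    ContinuousLinearMap.comp_apply, ContinuousLinearMap.smulRight_apply, neg_apply,
    ContinuousLinearMap.mulLeftRight_apply, fderiv_pf b h hQ v]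
  rw [smul_neg, add_comm, ← sub_eq_add_neg]
  rfl

omit [FiniteDimensional ℝ E] in
lemma anti_inv {A : E →L[ℝ] E} (hA : Anti A) (u : (E →L[ℝ] E)ˣ) (hu : (u : E →L[ℝ] E) = A) :
    Anti (↑u⁻¹ : E →L[ℝ] E) := by
  intro v w
  have h1 : ∀ z, A ((↑u⁻¹ : E →L[ℝ] E) z) = z := fun z => by
    have := u.mul_inv
    rw [hu] at this
    exact congrArg (fun T : E →L[ℝ] E => T z) this
  have h2 := hA ((↑u⁻¹ : E →L[ℝ] E) v) ((↑u⁻¹ : E →L[ℝ] E) w)
  rw [h1, h1] at h2
  linarith

/-- the weighted inverse of a closed two-form is free of divergence -/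
lemma div_wt (b : OrthonormalBasis ι ℝ E) {Om : E → E →L[ℝ] E} {x : E}
    (h : ContDiffAt ℝ 1 Om x) (hu : IsUnit (Om x)) (hA : Anti (Om x))
    (hc : ∀ v, Anti (fderiv ℝ Om x v)) (hcl : Cl (fderiv ℝ Om x)) (z : E) :
    ∑ k, inner ℝ (b k) (fderiv ℝ (wt Om) x (b k) z) = 0 := by
  obtain ⟨u, hu⟩ := hu
  have hQ := anti_inv hA u hu
  set Q : E →L[ℝ] E := (↑u⁻¹ : E →L[ℝ] E) with hQd
  set c := fderiv ℝ Om x with hcd
  have h1 := alg b hQ hc hcl (Q z)
  have h2 : ∀ k, inner ℝ (b k) (fderiv ℝ (wt Om) x (b k) z) = pf (Om x) *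
      (1 / 2 * (tr b (Q ∘L c (b k)) * inner ℝ (b k) (Q z)) - inner ℝ (b k) (Q (c (b k) (Q z)))) := by
    intro k
    rw [fderiv_wt b h u hu]
    simp only [sub_apply, smul_apply, inner_sub_right,
      inner_smul_right, ContinuousLinearMap.comp_apply]
    ring
  rw [Finset.sum_congr rfl fun k _ => h2 k, ← Finset.mul_sum, Finset.sum_sub_distrib, ← Finset.mul_sum]
  have h3 : ∑ k, tr b (Q ∘L c (b k)) * inner ℝ (b k) (Q z) = tr b (Q ∘L c (Q z)) := by
    have h4 : c (Q z) = ∑ k, inner ℝ (b k) (Q z) • c (b k) := by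
      conv_lhs => rw [← b.sum_repr' (Q z)]
      simp
    rw [h4]
    simp only [tr, ContinuousLinearMap.comp_apply, FunLike.coe_sum, Finset.sum_apply,
      smul_apply, map_sum, map_smul, inner_sum, inner_smul_right, Finset.sum_mul]
    rw [Finset.sum_comm]
    refine Finset.sum_congr rfl fun k _ => Finset.sum_congr rfl fun j _ => ?_
    ring
  rw [h3, ← h1]
  ring

end Pool.Agent.H85.KA
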