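import Pool.Agent.H85.KA.Alg
import Pool.Agent.H85.KA.DivBall

/-!
# A closed two-form vanishing on the sphere is orthogonal to a bivector field free of divergence
-/

open Set Metric MeasureTheory Filter Topology
open scoped ContDiff NNReal

noncomputable section

set_option maxSynthPendingDepth 3

namespace Pool.Agent.H85.KA

variable {E : Type*} [NormedAddCommGroup E] [InnerProductSpace ℝ E]
  {ι : Type*} [Fintype ι]

/-- the trace as a continuous linear functional -/
def trL (b : OrthonormalBasis ι ℝ E) : (E →L[ℝ] E) →L[ℝ] ℝ :=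
  ∑ k, (innerSL ℝ (b k)) ∘L (ContinuousLinearMap.apply ℝ E (b k))

lemma trL_apply (b : OrthonormalBasis ι ℝ E) (A : E →L[ℝ] E) : trL b A = tr b A := by
  simp [trL, tr]

/-- the vector field -/
def YY (b : OrthonormalBasis ι ℝ E) (W B : E → E →L[ℝ] E) (t : ℝ) (x : E) : E :=
  (2 : ℝ) • W (t • x) (B x x) - trL b (W (t • x) ∘L B x) • x

lemma hasFDerivAt_scale {W : E → E →L[ℝ] E} {t : ℝ} {x : E} (hW : ContDiffAt ℝ 1 W (t • x)) :
    HasFDerivAt (fun y => W (t • y)) (t • fderiv ℝ W (t • x)) x := by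
  have h1 : HasFDerivAt (fun y : E => t • y) (t • ContinuousLinearMap.id ℝ E) x :=
    (hasFDerivAt_id x).const_smul t
  have h2 := (hW.differentiableAt (by norm_num)).hasFDerivAt.comp x h1
  refine h2.congr_fderiv ?_
  ext v w
  simp

lemma contDiffAt_scale {W : E → E →L[ℝ] E} {t : ℝ} {x : E} (hW : ContDiffAt ℝ 1 W (t • x)) :
    ContDiffAt ℝ 1 (fun y => W (t • y)) x :=
  hW.comp x (contDiffAt_id.const_smul t)

lemma contDiffAt_YY (b : OrthonormalBasis ι ℝ E) {W B : E → E →L[ℝ] E} {t : ℝ} {x : E}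
    (hW : ContDiffAt ℝ 1 W (t • x)) (hB : ContDiffAt ℝ 1 B x) : ContDiffAt ℝ 1 (YY b W B t) x := by
  have h1 := contDiffAt_scale hW
  refine ContDiffAt.sub ?_ ?_
  · exact (h1.clm_apply (hB.clm_apply contDiffAt_id)).const_smul _
  · exact ((trL b).contDiff.contDiffAt.comp x (h1.clm_comp hB)).smul contDiffAt_id

lemma fderiv_YY (b : OrthonormalBasis ι ℝ E) {W B : E → E →L[ℝ] E} {t : ℝ} {x : E}
    (hW : ContDiffAt ℝ 1 W (t • x)) (hB : ContDiffAt ℝ 1 B x) (v : E) :
    fderiv ℝ (YY b W B t) x v =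
      (2 : ℝ) • (t • fderiv ℝ W (t • x) v (B x x) + W (t • x) (fderiv ℝ B x v x) + W (t • x) (B x v)) -
      (t * tr b (fderiv ℝ W (t • x) v ∘L B x) + tr b (W (t • x) ∘L fderiv ℝ B x v)) • x -
      tr b (W (t • x) ∘L B x) • v := by
  have h1 := hasFDerivAt_scale hW
  have h2 := (hB.differentiableAt (by norm_num)).hasFDerivAt
  have h3 := (h1.clm_apply (h2.clm_apply (hasFDerivAt_id x))).const_smul (2 : ℝ)
  have h4 := (((trL b).hasFDerivAt.comp x (h1.clm_comp h2))).smul (hasFDerivAt_id x)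
  have h5 : fderiv ℝ (YY b W B t) x = _ := (h3.sub h4).fderiv
  rw [h5]
  simp only [sub_apply, smul_apply, add_apply, ContinuousLinearMap.comp_apply, id,
    ContinuousLinearMap.flip_apply, ContinuousLinearMap.smulRight_apply, Function.comp_apply,
    ContinuousLinearMap.compL_apply, ContinuousLinearMap.id_apply, map_add, trL_apply]
  rw [ContinuousLinearMap.smul_comp, tr_smul]
  module

lemma tr_sum (b : OrthonormalBasis ι ℝ E) {F : Type*} [NormedAddCommGroup F] [NormedSpace ℝ F]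
    (c : E →L[ℝ] F) (T : F →L[ℝ] ℝ) (x : E) : ∑ k, T (c (b k)) * inner ℝ (b k) x = T (c x) := by
  conv_rhs => rw [← b.sum_repr' x]
  simp only [map_sum, map_smul, smul_eq_mul]
  exact Finset.sum_congr rfl fun k _ => mul_comm _ _

/-- the divergence -/
lemma div_YY (b : OrthonormalBasis ι ℝ E) {W B : E → E →L[ℝ] E} {t : ℝ} {x : E}
    (hW : ContDiffAt ℝ 1 W (t • x)) (hB : ContDiffAt ℝ 1 B x) (hWa : Anti (W (t • x)))
    (hWd : ∀ z, ∑ k, inner ℝ (b k) (fderiv ℝ W (t • x) (b k) z) = 0)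
    (hBa : ∀ u, Anti (fderiv ℝ B x u)) (hBc : Cl (fderiv ℝ B x)) :
    ∑ k, inner ℝ (b k) (fderiv ℝ (YY b W B t) x (b k)) =
      -(((Fintype.card ι : ℝ) - 2) * tr b (W (t • x) ∘L B x) +
        t * tr b (fderiv ℝ W (t • x) x ∘L B x)) := by
  have h1 := alg b hWa hBa hBc x
  have h2 : ∀ k, inner ℝ (b k) (fderiv ℝ (YY b W B t) x (b k)) =
      2 * t * inner ℝ (b k) (fderiv ℝ W (t • x) (b k) (B x x)) +
      2 * inner ℝ (b k) (W (t • x) (fderiv ℝ B x (b k) x)) +
      2 * inner ℝ (b k) ((W (t • x) ∘L B x) (b k)) -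
      (t * (tr b (fderiv ℝ W (t • x) (b k) ∘L B x) * inner ℝ (b k) x) +
        tr b (W (t • x) ∘L fderiv ℝ B x (b k)) * inner ℝ (b k) x) -
      tr b (W (t • x) ∘L B x) := by
    intro k
    rw [fderiv_YY b hW hB]
    have h3 : inner ℝ (b k) (b k) = (1 : ℝ) := by
      rw [real_inner_self_eq_norm_sq, b.orthonormal.1 k]; norm_num
    simp only [inner_sub_right, inner_add_right, inner_smul_right, h3,
      ContinuousLinearMap.comp_apply]
    ring
  have h4 := tr_sum b (fderiv ℝ W (t • x)) (trL b ∘L (ContinuousLinearMap.compL ℝ E E E).flip (B x)) x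
  have h5 := tr_sum b (fderiv ℝ B x) (trL b ∘L (ContinuousLinearMap.compL ℝ E E E) (W (t • x))) x
  simp only [ContinuousLinearMap.comp_apply, ContinuousLinearMap.flip_apply,
    ContinuousLinearMap.compL_apply, trL_apply] at h4 h5
  rw [Finset.sum_congr rfl fun k _ => h2 k]
  simp only [Finset.sum_sub_distrib, Finset.sum_add_distrib, ← Finset.mul_sum]
  rw [hWd, h4, h5, h1]
  simp only [Finset.sum_const, Finset.card_univ, nsmul_eq_mul]
  have h6 : ∑ k, inner ℝ (b k) ((W (t • x) ∘L B x) (b k)) = tr b (W (t • x) ∘L B x) := rfl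
  rw [h6]
  ring

lemma smul_mem_cb {t : ℝ} (ht : t ∈ Icc (0 : ℝ) 1) {x : E} (hx : x ∈ closedBall (0 : E) 1) :
    t • x ∈ closedBall (0 : E) 1 := by
  simp only [mem_closedBall, dist_zero_right] at hx ⊢
  rw [norm_smul, Real.norm_eq_abs, abs_of_nonneg ht.1]
  calc t * ‖x‖ ≤ 1 * 1 := mul_le_mul ht.2 hx (norm_nonneg _) zero_le_one
    _ = 1 := one_mul 1

lemma smul_mem_ball {t : ℝ} (ht : t ∈ Icc (0 : ℝ) 1) {x : E} (hx : x ∈ ball (0 : E) 1) :
    t • x ∈ ball (0 : E) 1 := by
  simp only [mem_ball, dist_zero_right] at hx ⊢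
  rw [norm_smul, Real.norm_eq_abs, abs_of_nonneg ht.1]
  calc t * ‖x‖ ≤ 1 * ‖x‖ := mul_le_mul_of_nonneg_right ht.2 (norm_nonneg _)
    _ < 1 := by rw [one_mul]; exact hx

variable [FiniteDimensional ℝ E] [MeasurableSpace E] [BorelSpace E]

lemma cb_ae (hn : 0 < Module.finrank ℝ E) : (ball (0 : E) 1 : Set E) =ᵐ[volume] closedBall (0 : E) 1 := by
  have : Nontrivial E := Module.nontrivial_of_finrank_pos (R := ℝ) hn
  have h1 := measure_eq_zero_iff_ae_notMem.1 (Measure.addHaar_sphere (volume : Measure E) (0 : E) 1)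
  filter_upwards [h1] with x hx
  have h5 : ‖x‖ ≠ 1 := by simpa using hx
  have : (x ∈ ball (0 : E) 1) = (x ∈ closedBall (0 : E) 1) := by
    simp only [mem_ball, mem_closedBall, dist_zero_right]
    exact propext ⟨fun h => h.le, fun h => lt_of_le_of_ne h h5⟩
  exact this

/-- the identity at the scale `t` -/
lemma scale_t (b : OrthonormalBasis ι ℝ E) (hn : 0 < Fintype.card ι) {W B : E → E →L[ℝ] E}
    (hW : ∀ x ∈ closedBall (0 : E) 1, ContDiffAt ℝ 1 W x)
    (hWa : ∀ x ∈ closedBall (0 : E) 1, Anti (W x))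
    (hWd : ∀ x ∈ ball (0 : E) 1, ∀ z, ∑ k, inner ℝ (b k) (fderiv ℝ W x (b k) z) = 0)
    (hB : ∀ x ∈ closedBall (0 : E) 1, ContDiffAt ℝ 1 B x)
    (hBa : ∀ x ∈ ball (0 : E) 1, ∀ u, Anti (fderiv ℝ B x u))
    (hBc : ∀ x ∈ ball (0 : E) 1, Cl (fderiv ℝ B x))
    (hB0 : ∀ x ∈ sphere (0 : E) 1, B x = 0) {t : ℝ} (ht : t ∈ Icc (0 : ℝ) 1) :
    ∫ x in closedBall (0 : E) 1, (((Fintype.card ι : ℝ) - 2) * tr b (W (t • x) ∘L B x) +
        t * tr b (fderiv ℝ W (t • x) x ∘L B x)) = 0 := by
  have hfr : Module.finrank ℝ E = Fintype.card ι := Module.finrank_eq_card_basis b.toBasis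
  have hn' : 0 < Module.finrank ℝ E := by omega
  have hY : ∀ x ∈ closedBall (0 : E) 1, ContDiffAt ℝ 1 (YY b W B t) x := fun x hx =>
    contDiffAt_YY b (hW _ (smul_mem_cb ht hx)) (hB x hx)
  have h0 : ∀ k, ∫ x in closedBall (0 : E) 1,
      fderiv ℝ (fun y => inner ℝ (b k) (YY b W B t y)) x (b k) = 0 := fun k => by
    refine int_deriv hn' (fun x hx => contDiffAt_const.inner ℝ (hY x hx)) (fun x hx => ?_) (b k)
    have h1 := hB0 x hx
    simp [YY, h1]
  have h1 : ∀ k, ∀ x ∈ closedBall (0 : E) 1, fderiv ℝ (fun y => inner ℝ (b k) (YY b W B t y)) x (b k) =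
      inner ℝ (b k) (fderiv ℝ (YY b W B t) x (b k)) := by
    intro k x hx
    have h2 := ((hY x hx).differentiableAt (by norm_num)).hasFDerivAt
    have h3 := (innerSL ℝ (b k)).hasFDerivAt.comp x h2
    have h4 : HasFDerivAt (fun y => inner ℝ (b k) (YY b W B t y))
      ((innerSL ℝ (b k)) ∘L fderiv ℝ (YY b W B t) x) x := h3
    rw [h4.fderiv]
    rfl
  have hc : ∀ k, ContinuousOn (fun x => inner ℝ (b k) (fderiv ℝ (YY b W B t) x (b k)))
      (closedBall (0 : E) 1) := fun k x hx => by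
    have h2 := ((hY x hx).fderiv_right (m := 0) (by norm_num)).continuousAt
    exact (continuousAt_const.inner (h2.clm_apply continuousAt_const)).continuousWithinAt
  have h2 : ∫ x in closedBall (0 : E) 1, ∑ k, inner ℝ (b k) (fderiv ℝ (YY b W B t) x (b k)) = 0 := by
    rw [integral_finsetSum _ fun k _ => (hc k).integrableOn_compact (isCompact_closedBall _ _)]
    refine Finset.sum_eq_zero fun k _ => ?_
    rw [← h0 k]
    exact (setIntegral_congr_fun measurableSet_closedBall fun x hx => h1 k x hx).symm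
  rw [← neg_eq_zero, ← integral_neg, ← h2, ← setIntegral_congr_set (cb_ae hn'),
    ← setIntegral_congr_set (cb_ae hn')]
  refine setIntegral_congr_fun measurableSet_ball fun x hx => ?_
  have hxc := ball_subset_closedBall hx
  exact (div_YY b (hW _ (smul_mem_cb ht hxc)) (hB x hxc) (hWa _ (smul_mem_cb ht hxc))
    (hWd _ (smul_mem_ball ht hx)) (hBa x hx) (hBc x hx)).symm

/-- the integral of the contraction vanishes -/
theorem int_contr (b : OrthonormalBasis ι ℝ E) (hn : 3 ≤ Fintype.card ι) {W B : E → E →L[ℝ] E}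
    (hW : ∀ x ∈ closedBall (0 : E) 1, ContDiffAt ℝ 1 W x)
    (hWa : ∀ x ∈ closedBall (0 : E) 1, Anti (W x))
    (hWd : ∀ x ∈ ball (0 : E) 1, ∀ z, ∑ k, inner ℝ (b k) (fderiv ℝ W x (b k) z) = 0)
    (hB : ∀ x ∈ closedBall (0 : E) 1, ContDiffAt ℝ 1 B x)
    (hBa : ∀ x ∈ ball (0 : E) 1, ∀ u, Anti (fderiv ℝ B x u))
    (hBc : ∀ x ∈ ball (0 : E) 1, Cl (fderiv ℝ B x))
    (hB0 : ∀ x ∈ sphere (0 : E) 1, B x = 0) :
    ∫ x in closedBall (0 : E) 1, tr b (W x ∘L B x) = 0 := by
  obtain ⟨m, hm⟩ : ∃ m, Fintype.card ι = m + 3 := ⟨Fintype.card ι - 3, by omega⟩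
  set f : ℝ → E → ℝ := fun t x => t ^ m * (((Fintype.card ι : ℝ) - 2) * tr b (W (t • x) ∘L B x) +
        t * tr b (fderiv ℝ W (t • x) x ∘L B x)) with hf
  have hcomp : IsCompact (Icc (0 : ℝ) 1 ×ˢ closedBall (0 : E) 1) :=
    isCompact_Icc.prod (isCompact_closedBall _ _)
  have hcont : ContinuousOn (Function.uncurry f) (Icc (0 : ℝ) 1 ×ˢ closedBall (0 : E) 1) := by
    rintro ⟨t, x⟩ ⟨ht, hx⟩
    have hm := smul_mem_cb ht hx
    have c0 : ContinuousAt (fun w : ℝ × E => w.1 • w.2) (t, x) := by fun_prop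
    have c1 : ContinuousAt (fun w : ℝ × E => W (w.1 • w.2)) (t, x) :=
      ContinuousAt.comp (f := fun w : ℝ × E => w.1 • w.2) (hW _ hm).continuousAt c0
    have c2 : ContinuousAt (fun w : ℝ × E => fderiv ℝ W (w.1 • w.2)) (t, x) :=
      ContinuousAt.comp (f := fun w : ℝ × E => w.1 • w.2) (g := fderiv ℝ W)
        ((hW _ hm).fderiv_right (m := 0) (by norm_num)).continuousAt c0
    have c3 : ContinuousAt (fun w : ℝ × E => B w.2) (t, x) :=
      ContinuousAt.comp (f := fun w : ℝ × E => w.2) (hB x hx).continuousAt continuousAt_snd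
    have c4 : ContinuousAt (fun w : ℝ × E => tr b (W (w.1 • w.2) ∘L B w.2)) (t, x) := by
      have := (trL b).continuous.continuousAt.comp (c1.clm_comp c3)
      simpa only [Function.comp_def, trL_apply] using this
    have c5 : ContinuousAt (fun w : ℝ × E => tr b (fderiv ℝ W (w.1 • w.2) w.2 ∘L B w.2)) (t, x) := by
      have := (trL b).continuous.continuousAt.comp ((c2.clm_apply continuousAt_snd).clm_comp c3)
      simpa only [Function.comp_def, trL_apply] using this
    refine ContinuousAt.continuousWithinAt ?_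
    exact (continuousAt_fst.pow m).mul ((continuousAt_const.mul c4).add (continuousAt_fst.mul c5))
  have hint : Integrable (Function.uncurry f)
      ((volume.restrict (Set.uIoc (0 : ℝ) 1)).prod (volume.restrict (closedBall (0 : E) 1))) := by
    rw [Measure.prod_restrict]
    have h1 : IntegrableOn (Function.uncurry f) (Icc (0 : ℝ) 1 ×ˢ closedBall (0 : E) 1)
        ((volume : Measure ℝ).prod (volume : Measure E)) := hcont.integrableOn_compact hcomp
    refine h1.mono_set (prod_mono ?_ le_rfl)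
    rw [uIoc_of_le zero_le_one]
    exact Ioc_subset_Icc_self
  have hswap := intervalIntegral_integral_swap (f := f) hint
  have h0 : ∫ t in (0 : ℝ)..1, ∫ x in closedBall (0 : E) 1, f t x = 0 := by
    have h1 : ∀ t ∈ uIcc (0 : ℝ) 1, ∫ x in closedBall (0 : E) 1, f t x = 0 := by
      intro t ht
      rw [uIcc_of_le zero_le_one] at ht
      have := scale_t b (by omega) hW hWa hWd hB hBa hBc hB0 ht
      simp only [hf]
      rw [integral_const_mul, this, mul_zero]
    rw [intervalIntegral.integral_congr h1]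
    simp
  have h1 : ∀ x ∈ closedBall (0 : E) 1, ∫ t in (0 : ℝ)..1, f t x = tr b (W x ∘L B x) := by
    intro x hx
    have h2 : ∀ t ∈ uIcc (0 : ℝ) 1, HasDerivAt (fun t : ℝ => t ^ (m + 1) * tr b (W (t • x) ∘L B x))
        (f t x) t := by
      intro t ht
      rw [uIcc_of_le zero_le_one] at ht
      have hm' := smul_mem_cb ht hx
      have e1 : HasDerivAt (fun t : ℝ => t • x) x t := by
        simpa using (hasDerivAt_id t).smul_const x
      have e2 := ((hW _ hm').differentiableAt (by norm_num)).hasFDerivAt.comp_hasDerivAt t e1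
      have e3 := (trL b).hasFDerivAt.comp_hasDerivAt t (e2.clm_comp (hasDerivAt_const t (B x)))
      have e4 := (hasDerivAt_pow (m + 1) t).mul e3
      simp only [Function.comp_def, trL_apply] at e4
      refine e4.congr_deriv ?_
      simp only [hf, ContinuousLinearMap.comp_zero, add_zero, zero_add, Nat.add_sub_cancel, hm]
      push_cast
      ring
    have h3 : IntervalIntegrable (fun t => f t x) volume 0 1 := by
      refine ContinuousOn.intervalIntegrable ?_
      rw [uIcc_of_le zero_le_one]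
      exact hcont.comp (f := fun t : ℝ => (t, x)) (by fun_prop) fun t ht => ⟨ht, hx⟩
    rw [intervalIntegral.integral_eq_sub_of_hasDerivAt h2 h3]
    simp
  rw [← hswap.symm.trans h0]
  exact (setIntegral_congr_fun measurableSet_closedBall fun x hx => h1 x hx).symm

end Pool.Agent.H85.KA
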