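import Pool.Agent.H85.KA.Jac
import Pool.Agent.H85.KA.Scale
import Pool.Agent.H85.BE.Final

/-!
# Almost Kaehler metrics on the closed unit ball
-/

open Set Metric MeasureTheory Filter Topology
open scoped ContDiff NNReal RealInnerProductSpace

noncomputable section

set_option maxSynthPendingDepth 3

namespace Pool.Agent.H85.KA

open Pool.Agent.W9h56.BE Pool.Agent.W5h72.BR

variable {E : Type*} [NormedAddCommGroup E] [InnerProductSpace ℝ E]

/-- the fundamental form `ω(v, w) = g(J v, w)` of `g` and `I` -/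
def fund (g : E → E →L[ℝ] E →L[ℝ] ℝ) (I : E → E →L[ℝ] E) (x : E) : E →L[ℝ] E →L[ℝ] ℝ :=
  (g x).comp (I x)

/-- `(M, g, I)` is almost Kaehler (`M` is the closed unit ball): `I` is an almost complex structure,
orthogonal for `g`, and the fundamental form is closed. It is Kaehler if moreover `I` is
integrable. -/
structure IsAlmostKaehler (g : E → E →L[ℝ] E →L[ℝ] ℝ) (I : E → E →L[ℝ] E) : Prop where
  smooth : ContDiff ℝ 1 I
  sq : ∀ x ∈ closedBall (0 : E) 1, ∀ v, I x (I x v) = -v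
  orth : ∀ x ∈ closedBall (0 : E) 1, ∀ v w, g x (I x v) (I x w) = g x v w
  closed : ∀ x ∈ closedBall (0 : E) 1, ∀ u v w, fderiv ℝ (fund g I) x u v w +
    fderiv ℝ (fund g I) x v w u + fderiv ℝ (fund g I) x w u v = 0

/-- `φ` is a holomorphic map `(M, I) → (M, I')` -/
def IsHolo (I I' : E → E →L[ℝ] E) (φ : E → E) : Prop :=
  ∀ x ∈ closedBall (0 : E) 1, ∀ v, fderiv ℝ φ x (I x v) = I' (φ x) (fderiv ℝ φ x v)

variable {g g' : E → E →L[ℝ] E →L[ℝ] ℝ} {I I' : E → E →L[ℝ] E} {φ : E → E}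

lemma fund_apply (x v w : E) : fund g I x v w = g x (I x v) w := rfl

lemma fund_anti {h : E →L[ℝ] E →L[ℝ] ℝ} {A : E →L[ℝ] E} (hs : ∀ v w, h v w = h w v)
    (hsq : ∀ v, A (A v) = -v) (ho : ∀ v w, h (A v) (A w) = h v w) (v w : E) :
    h (A v) w = - h (A w) v := by
  have h1 := ho (A v) w
  rw [hsq, map_neg, neg_apply] at h1
  rw [← h1, hs]

section boundary

/-- two hermitian forms which agree on a hyperplane are equal -/
lemma eq_of_hyper {D : E →L[ℝ] E →L[ℝ] ℝ} {A : E →L[ℝ] E} (hs : ∀ v w, D v w = D w v)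
    (hsq : ∀ v, A (A v) = -v) (ho : ∀ v w, D (A v) (A w) = D v w) {p : E} (hp : ‖p‖ = 1)
    (h0 : ∀ v w, inner ℝ p v = 0 → inner ℝ p w = 0 → D v w = 0) (v w : E) : D v w = 0 := by
  have hanti : ∀ v w, D (A v) w = - D (A w) v := fund_anti hs hsq ho
  have hpp : inner ℝ p p = (1 : ℝ) := by rw [real_inner_self_eq_norm_sq, hp]; norm_num
  -- a tangent vector whose image is transversal
  obtain ⟨u, hu, hAu⟩ : ∃ u, inner ℝ p u = 0 ∧ inner ℝ p (A u) ≠ 0 := by
    by_contra hcon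
    push Not at hcon
    have e1 : ∀ v, inner ℝ p (A v) = inner ℝ p v * inner ℝ p (A p) := by
      intro v
      have h1 := hcon (v - inner ℝ p v • p) (by
        rw [inner_sub_right, inner_smul_right, hpp, mul_one, sub_self])
      rw [map_sub, map_smul, inner_sub_right, inner_smul_right] at h1
      linarith
    have e2 := e1 (A p)
    rw [hsq, inner_neg_right, hpp] at e2
    nlinarith [sq_nonneg (inner ℝ p (A p) : ℝ)]
  set q := A u with hq
  have hqu : D q u = 0 := by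
    have := hanti u u
    linarith
  have hqq : D q q = 0 := by
    rw [hq, ho]; exact h0 u u hu hu
  have hqt : ∀ z, inner ℝ p z = 0 → D q z = 0 := by
    intro z hz
    have h1 : D q z = - D (A z) u := hanti u z
    set c : ℝ := inner ℝ p (A z) / inner ℝ p q with hc
    have h2 : inner ℝ p (A z - c • q) = 0 := by
      rw [inner_sub_right, inner_smul_right, hc]
      field_simp
      ring
    have h3 := h0 _ u h2 hu
    rw [map_sub, sub_apply, map_smul, smul_apply, hqu, smul_zero, sub_zero] at h3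
    rw [h1, h3, neg_zero]
  have key : ∀ v, ∃ c : ℝ, ∃ z, inner ℝ p z = 0 ∧ v = c • q + z := fun v => by
    refine ⟨inner ℝ p v / inner ℝ p q, v - (inner ℝ p v / inner ℝ p q) • q, ?_, by abel⟩
    rw [inner_sub_right, inner_smul_right]
    field_simp
    ring
  obtain ⟨c, z, hz, rfl⟩ := key v
  obtain ⟨c', z', hz', rfl⟩ := key w
  simp only [map_add, map_smul, add_apply, smul_apply, smul_eq_mul]
  rw [hqq, hqt z' hz', hs z q, hqt z hz, h0 z z' hz hz']
  ring

/-- the derivative of a map which is the identity on the sphere, in the tangent directions -/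
lemma fderiv_tan (hφ : IsBdryMap φ) {p v : E} (hp : p ∈ sphere (0 : E) 1) (hv : inner ℝ p v = 0) :
    fderiv ℝ φ p v = v := by
  have hp0 := ne_zero_of_mem_sphere' hp
  have h1 := hasFDerivAt_proj hp0
  have h2 : HasFDerivAt φ (fderiv ℝ φ p) (proj p) := by
    rw [proj_of_mem hp]
    exact (hφ.smooth.differentiable (by norm_num) p).hasFDerivAt
  have h3 := h2.comp p h1
  have h4 : φ ∘ proj =ᶠ[𝓝 p] proj := by
    filter_upwards [isOpen_ne.mem_nhds hp0] with y hy
    exact hφ.bdry _ (proj_mem hy)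
  have h5 := (h1.congr_of_eventuallyEq h4).unique h3
  have h6 := congrArg (fun T : E →L[ℝ] E => T v) h5
  simp only [ContinuousLinearMap.comp_apply] at h6
  rw [Dproj_apply hp hv] at h6
  exact h6.symm

end boundary

section closedness

lemma contDiff_fund (hg : ContDiff ℝ 1 g) (hI : ContDiff ℝ 1 I) : ContDiff ℝ 1 (fund g I) :=
  hg.clm_comp hI

/-- the pull-back of a field of bilinear forms -/
def pb (om : E → E →L[ℝ] E →L[ℝ] ℝ) (φ : E → E) (x : E) : E →L[ℝ] E →L[ℝ] ℝ :=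
  ((ContinuousLinearMap.compL ℝ E E ℝ).flip (fderiv ℝ φ x)) ∘L (om (φ x) ∘L fderiv ℝ φ x)

lemma pb_apply (om : E → E →L[ℝ] E →L[ℝ] ℝ) (φ : E → E) (x v w : E) :
    pb om φ x v w = om (φ x) (fderiv ℝ φ x v) (fderiv ℝ φ x w) := rfl

lemma contDiff_pb {om : E → E →L[ℝ] E →L[ℝ] ℝ} (hom : ContDiff ℝ 1 om) (hφ : ContDiff ℝ 2 φ) :
    ContDiff ℝ 1 (pb om φ) := by
  have h1 : ContDiff ℝ 1 (fderiv ℝ φ) := hφ.fderiv_right (by norm_num)
  have h2 : ContDiff ℝ 1 (fun x => om (φ x)) := hom.comp (hφ.of_le (by norm_num))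
  exact (((ContinuousLinearMap.compL ℝ E E ℝ).flip).contDiff.comp h1).clm_comp (h2.clm_comp h1)

lemma fderiv_pb {om : E → E →L[ℝ] E →L[ℝ] ℝ} (hom : ContDiff ℝ 1 om) (hφ : ContDiff ℝ 2 φ)
    (x u v w : E) : fderiv ℝ (pb om φ) x u v w =
      fderiv ℝ om (φ x) (fderiv ℝ φ x u) (fderiv ℝ φ x v) (fderiv ℝ φ x w) +
      om (φ x) (fderiv ℝ (fderiv ℝ φ) x u v) (fderiv ℝ φ x w) +
      om (φ x) (fderiv ℝ φ x v) (fderiv ℝ (fderiv ℝ φ) x u w) := by
  have h1 : ContDiff ℝ 1 (fderiv ℝ φ) := hφ.fderiv_right (by norm_num)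
  have d1 : HasFDerivAt (fderiv ℝ φ) (fderiv ℝ (fderiv ℝ φ) x) x :=
    (h1.differentiable (by norm_num) x).hasFDerivAt
  have d2 : HasFDerivAt φ (fderiv ℝ φ x) x := (hφ.differentiable (by norm_num) x).hasFDerivAt
  have d3 : HasFDerivAt (fun y => om (φ y)) (fderiv ℝ om (φ x) ∘L fderiv ℝ φ x) x :=
    (hom.differentiable (by norm_num) (φ x)).hasFDerivAt.comp x d2
  have d4 := (d3.clm_apply (d1.clm_apply (hasFDerivAt_const v x))).clm_apply
    (d1.clm_apply (hasFDerivAt_const w x))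
  have d5 : HasFDerivAt (pb om φ) (fderiv ℝ (pb om φ) x) x :=
    ((contDiff_pb hom hφ).differentiable (by norm_num) x).hasFDerivAt
  have d6 := (d5.clm_apply (hasFDerivAt_const v x)).clm_apply (hasFDerivAt_const w x)
  have h2 := congrArg (fun T : E →L[ℝ] ℝ => T u) (d6.unique d4)
  simp only [add_apply, ContinuousLinearMap.comp_apply, ContinuousLinearMap.flip_apply,
    zero_apply, map_zero, zero_add] at h2
  rw [h2]
  ring

/-- the pull-back of a closed two-form is closed -/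
lemma closed_pb {om : E → E →L[ℝ] E →L[ℝ] ℝ} (hom : ContDiff ℝ 1 om) (hφ : ContDiff ℝ 2 φ) {x : E}
    (ha : ∀ v w, om (φ x) v w = - om (φ x) w v)
    (hcl : ∀ u v w, fderiv ℝ om (φ x) u v w + fderiv ℝ om (φ x) v w u + fderiv ℝ om (φ x) w u v = 0)
    (u v w : E) : fderiv ℝ (pb om φ) x u v w + fderiv ℝ (pb om φ) x v w u +
      fderiv ℝ (pb om φ) x w u v = 0 := by
  have hs : IsSymmSndFDerivAt ℝ φ x := hφ.contDiffAt.isSymmSndFDerivAt (by simp)
  rw [fderiv_pb hom hφ, fderiv_pb hom hφ, fderiv_pb hom hφ]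
  have h1 := hcl (fderiv ℝ φ x u) (fderiv ℝ φ x v) (fderiv ℝ φ x w)
  have h2 := ha (fderiv ℝ φ x v) (fderiv ℝ (fderiv ℝ φ) x u w)
  have h3 := ha (fderiv ℝ φ x w) (fderiv ℝ (fderiv ℝ φ) x v u)
  have h4 := ha (fderiv ℝ φ x u) (fderiv ℝ (fderiv ℝ φ) x w v)
  rw [hs.eq u w] at h2
  rw [hs.eq v u] at h3
  rw [hs.eq w v] at h4
  rw [hs.eq u w, hs.eq v u, hs.eq w v]
  linarith

variable [FiniteDimensional ℝ E]

/-- the field of operators of a field of bilinear forms -/
def op (om : E → E →L[ℝ] E →L[ℝ] ℝ) (x : E) : E →L[ℝ] E := gop (om x)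

lemma contDiff_op {om : E → E →L[ℝ] E →L[ℝ] ℝ} (hom : ContDiff ℝ 1 om) : ContDiff ℝ 1 (op om) := by
  have : op om = fun x => (ContinuousLinearMap.compL ℝ E (E →L[ℝ] ℝ) E J) (om x) := rfl
  rw [this]
  exact (ContinuousLinearMap.contDiff _).comp hom

lemma fderiv_op {om : E → E →L[ℝ] E →L[ℝ] ℝ} (hom : ContDiff ℝ 1 om) (x u v w : E) :
    inner ℝ (fderiv ℝ (op om) x u v) w = fderiv ℝ om x u v w := by
  have h1 : HasFDerivAt om (fderiv ℝ om x) x := (hom.differentiable (by norm_num) x).hasFDerivAt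
  have h2 := (ContinuousLinearMap.compL ℝ E (E →L[ℝ] ℝ) E J).hasFDerivAt.comp x h1
  have h3 : fderiv ℝ (op om) x = _ := h2.fderiv
  rw [h3]
  simp only [ContinuousLinearMap.comp_apply, ContinuousLinearMap.compL_apply]
  exact inner_J _ _

lemma anti_op {om : E → E →L[ℝ] E →L[ℝ] ℝ} {x : E} (ha : ∀ v w, om x v w = - om x w v) :
    Anti (op om x) := by
  intro u v
  rw [real_inner_comm (op om x v) u, op, inner_gop, inner_gop]
  exact ha u v

omit [FiniteDimensional ℝ E] in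
lemma anti_fderiv {F : E → E →L[ℝ] E} (hF : ContDiff ℝ 1 F) {x : E} (ha : ∀ᶠ y in 𝓝 x, Anti (F y))
    (u : E) : Anti (fderiv ℝ F x u) := by
  intro v w
  have d1 : HasFDerivAt F (fderiv ℝ F x) x := (hF.differentiable (by norm_num) x).hasFDerivAt
  have d2 := ((d1.clm_apply (hasFDerivAt_const v x)).inner ℝ (hasFDerivAt_const w x)).add
    ((hasFDerivAt_const v x).inner ℝ (d1.clm_apply (hasFDerivAt_const w x)))
  have d3 : HasFDerivAt (fun y => inner ℝ (F y v) w + inner ℝ v (F y w)) (0 : E →L[ℝ] ℝ) x := by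
    refine (hasFDerivAt_const (0 : ℝ) x).congr_of_eventuallyEq ?_
    filter_upwards [ha] with y hy
    rw [hy v w]; ring
  have h2 := congrArg (fun T : E →L[ℝ] ℝ => T u) (d2.unique d3)
  simp only [add_apply, ContinuousLinearMap.comp_apply, ContinuousLinearMap.prod_apply,
    fderivInnerCLM_apply, ContinuousLinearMap.flip_apply, zero_apply, map_zero, zero_add,
    inner_zero_left, inner_zero_right, add_zero] at h2
  linarith

end closedness

end Pool.Agent.H85.KA
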