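import Pool.Agent.H85.KA.Main

/-!
# Boundary rigidity in the class of (almost) Kaehler metrics with a given complex structure

`M` is the closed unit ball of a Euclidean space `E` of dimension `n ≥ 3` (a compact manifold with a
simple metric is diffeomorphic to it). Let `g`, `g'` be simple metrics on `M` with
`d_g = d_{g'}` on `∂M × ∂M`, let `I`, `I'` be almost complex structures on `M`, orthogonal for `g`
and `g'`, whose fundamental forms `g(I v, w)`, `g'(I' v, w)` are closed (this holds for Kaehler
metrics), and let `φ : M → M` be a holomorphic map, `dφ ∘ I = I' ∘ dφ`, of class `C²`, which is the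
identity on `∂M`. Then `φ^* g' = g`, and `g`, `g'` are isometric by a diffeomorphism which is the
identity on `∂M`.

For `I = I'` and `φ = id`: two simple metrics which are Kaehler (or almost Kaehler) for the same
(almost) complex structure and have the same boundary distances are equal. There is no hypothesis
on the curvature, on convex foliations, or on the distance of the metrics.

Sketch of the proof.
* The boundary distances determine the metric on the tangent spaces of `∂M`; as both metrics are
  hermitian and the differential of `φ` is the identity there, `φ^* g' = g` on the whole tangent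
  space of `M` at the points of `∂M`.
* So `β = φ^* ω' - ω` is a closed two-form which vanishes at the points of `∂M`. The weighted
  inverse `W = √(det ω) ω⁻¹` is a bivector field free of divergence, as `ω` is closed. The integral
  over `M` of the contraction of `W` with `β` is zero: the divergence theorem for the vector fields
  `2 W(t x) β(x) x - tr(W(t x) β(x)) x`, which vanish on `∂M`, gives a differential equation in `t`
  for the integral of the contraction of `W(t x)` with `β(x)`, and here `n ≥ 3` is used.
* So the energy of `φ` is that of the identity of `(M, g)`, that is, the volume of `(M, g)`, and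
  the sharp inequality for the mean stretch of a map between metrics (Santalo's formula) gives
  `φ^* g' = g`.
-/

namespace Pool.Agent.H85.KA.KaehlerClass

open Pool.Agent.W9h56.BE Pool.Agent.H85.KA

theorem kaehler_class {E : Type*} [NormedAddCommGroup E] [InnerProductSpace ℝ E] [FiniteDimensional ℝ E]
    (hn : 3 ≤ Module.finrank ℝ E) (g g' : E → E →L[ℝ] E →L[ℝ] ℝ) (I I' : E → E →L[ℝ] E)
    (φ : E → E) (hg : IsSimpleM g) (hg' : IsSimpleM g') (hK : IsAlmostKaehler g I)
    (hK' : IsAlmostKaehler g' I') (hφ : IsBdryMap φ) (hφ2 : ContDiff ℝ 2 φ) (hol : IsHolo I I' φ)
    (hd : BdryLE g g') (hd' : BdryLE g' g) :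
    IsIsometric g g' φ ∧ RelIsometric g g' := by
  borelize E
  exact main hn hg hg' hK hK' hφ hφ2 hol hd hd'

end Pool.Agent.H85.KA.KaehlerClass
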