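import Pool.Agent.H85.KA.Kae

/-!
# Boundary rigidity in the class of almost Kaehler metrics with a given almost complex structure
-/

open Set Metric MeasureTheory Filter Topology
open scoped ContDiff NNReal RealInnerProductSpace

noncomputable section

set_option maxSynthPendingDepth 3

namespace Pool.Agent.H85.KA

open Pool.Agent.W9h56.BE Pool.Agent.W5h72.BR

variable {E : Type*} [NormedAddCommGroup E] [InnerProductSpace ℝ E] [FiniteDimensional ℝ E]

section algebra

lemma mat_gop (C : E →L[ℝ] E →L[ℝ] ℝ) :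
    mat (stdOrthonormalBasis ℝ E) (gop C) = (gram C).transpose := by
  ext i j
  rw [mat, Matrix.of_apply, real_inner_comm, inner_gop]
  rfl

/-- an injective operator is a unit -/
lemma isUnit_of_inj {A : E →L[ℝ] E} (h : ∀ v, A v = 0 → v = 0) : IsUnit A := by
  have hinj : Function.Injective (A : E →ₗ[ℝ] E) := by
    rw [injective_iff_map_eq_zero]
    exact h
  set f := (LinearEquiv.ofInjectiveEndo (A : E →ₗ[ℝ] E) hinj).toContinuousLinearEquiv with hf
  have h1 : (f : E →L[ℝ] E) = A := by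
    ext v
    rfl
  rw [← h1]
  exact ⟨ContinuousLinearEquiv.toUnit f, rfl⟩

lemma abs_det_one {A : E →L[ℝ] E} (hsq : ∀ v, A (A v) = -v) : |A.det| = 1 := by
  have h1 : LinearMap.det ((A : E →ₗ[ℝ] E) ∘ₗ (A : E →ₗ[ℝ] E)) =
      (-1) ^ Module.finrank ℝ E := by
    have : (A : E →ₗ[ℝ] E) ∘ₗ (A : E →ₗ[ℝ] E) = (-1 : ℝ) • LinearMap.id := by
      ext v
      simp [hsq]
    rw [this, LinearMap.det_smul, LinearMap.det_id, mul_one]
  rw [LinearMap.det_comp] at h1
  have h2 := congrArg abs h1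
  rw [abs_mul, abs_pow, abs_neg, abs_one, one_pow] at h2
  have h3 : |A.det| * |A.det| = 1 := h2
  nlinarith [abs_nonneg A.det]

lemma pf_op {B : E →L[ℝ] E →L[ℝ] ℝ} {A : E →L[ℝ] E} (hsq : ∀ v, A (A v) = -v)
    (hpos : 0 < (gram B).det) : pf (gop B ∘L A) = dens B := by
  rw [pf, dens]
  congr 1
  have h1 : (gop B ∘L A).det = (gop B).det * A.det := by
    rw [ContinuousLinearMap.det, ContinuousLinearMap.det, ContinuousLinearMap.det,
      ← LinearMap.det_comp]
    rfl
  rw [h1, abs_mul, abs_det_one hsq, mul_one]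
  have h2 : (gop B).det = (gram B).det := det_gop B
  rw [h2, abs_of_pos hpos]

lemma tr_comm (b : OrthonormalBasis (Fin (Module.finrank ℝ E)) ℝ E) (A B : E →L[ℝ] E) :
    tr b (A ∘L B) = tr b (B ∘L A) := by
  rw [← mat_trace, ← mat_trace, mat_mul, mat_mul, Matrix.trace_mul_comm]

/-- the trace of the quotient -/
lemma tr_quot {B C : E →L[ℝ] E →L[ℝ] ℝ} (A : (E →L[ℝ] E)ˣ) (G : (E →L[ℝ] E)ˣ)
    (hG : (G : E →L[ℝ] E) = gop B) (hn : 0 < Module.finrank ℝ E) :
    tr (stdOrthonormalBasis ℝ E) (Ring.inverse (gop B ∘L (A : E →L[ℝ] E)) ∘L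
      (gop C ∘L (A : E →L[ℝ] E))) = Module.finrank ℝ E * ntr B C := by
  set b := stdOrthonormalBasis ℝ E with hb
  have h1 : Ring.inverse (gop B ∘L (A : E →L[ℝ] E)) = (↑A⁻¹ : E →L[ℝ] E) ∘L (↑G⁻¹ : E →L[ℝ] E) := by
    have : gop B ∘L (A : E →L[ℝ] E) = ((G * A : (E →L[ℝ] E)ˣ) : E →L[ℝ] E) := by
      rw [Units.val_mul, hG]; rfl
    rw [this, Ring.inverse_unit, mul_inv_rev, Units.val_mul]
    rfl
  have h2 : (Ring.inverse (gop B ∘L (A : E →L[ℝ] E)) ∘L (gop C ∘L (A : E →L[ℝ] E))) =
      (↑A⁻¹ : E →L[ℝ] E) ∘L (((↑G⁻¹ : E →L[ℝ] E) ∘L gop C) ∘L (A : E →L[ℝ] E)) := by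
    rw [h1]; rfl
  have h3 : (A : E →L[ℝ] E) ∘L (↑A⁻¹ : E →L[ℝ] E) = ContinuousLinearMap.id ℝ E := A.mul_inv
  rw [h2, tr_comm, ContinuousLinearMap.comp_assoc, h3, ContinuousLinearMap.comp_id]
  have h4 : mat b (↑G⁻¹ : E →L[ℝ] E) = ((gram B)⁻¹).transpose := by
    have h5 : mat b (↑G⁻¹ : E →L[ℝ] E) * (gram B).transpose = 1 := by
      rw [← mat_gop, ← hb, ← mat_mul, ← hG]
      have : (↑G⁻¹ : E →L[ℝ] E) ∘L (G : E →L[ℝ] E) = ContinuousLinearMap.id ℝ E := G.inv_mul
      rw [this, mat_one]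
    rw [Matrix.transpose_nonsing_inv]
    exact (Matrix.inv_eq_left_inv h5).symm
  rw [← mat_trace, mat_mul, h4, hb, mat_gop, ← Matrix.transpose_mul, Matrix.trace_transpose,
    Matrix.trace_mul_comm, ntr]
  have hn' : (Module.finrank ℝ E : ℝ) ≠ 0 := by exact_mod_cast hn.ne'
  field_simp

end algebra

variable [MeasurableSpace E] [BorelSpace E]

variable {g g' : E → E →L[ℝ] E →L[ℝ] ℝ} {e L e' L' : E → E → E} {I I' : E → E →L[ℝ] E} {φ : E → E}

lemma unit_I {A : E →L[ℝ] E} (hsq : ∀ v, A (A v) = -v) : IsUnit A :=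
  isUnit_of_inj fun v hv => by
    have := hsq v
    rw [hv, map_zero] at this
    exact neg_eq_zero.1 this.symm

lemma unit_G {B : E →L[ℝ] E →L[ℝ] ℝ} (hp : ∀ v, v ≠ 0 → 0 < B v v) : IsUnit (gop B) :=
  isUnit_of_inj fun v hv => by
    by_contra hne
    have h1 := inner_gop B v v
    rw [hv, inner_zero_left] at h1
    exact (hp v hne).ne h1

/-- the pulled back metric and the metric agree at the boundary -/
lemma pull_bdry (h : Simple g e L) (h' : Simple g' e' L') (hK : IsAlmostKaehler g I)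
    (hK' : IsAlmostKaehler g' I') (hφ : IsBdryMap φ) (hol : IsHolo I I' φ)
    (hd : ∀ p ∈ sphere (0 : E) 1, ∀ q ∈ sphere (0 : E) 1, rho g L p q = rho g' L' p q)
    {p : E} (hp : p ∈ sphere (0 : E) 1) (v w : E) : pull φ g' p v w = g p v w := by
  have hpM := mem_of_sphere hp
  have hφp : φ p = p := hφ.bdry p hp
  have key := eq_of_hyper (D := pull φ g' p - g p) (A := I p) (p := p)
    (fun v w => by
      simp only [sub_apply, pull_apply]
      rw [hφp, h'.symm p hpM, h.symm p hpM])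
    (hK.sq p hpM) (fun v w => by
      simp only [sub_apply, pull_apply]
      rw [hol p hpM, hol p hpM, hφp, hK'.orth p hpM, hK.orth p hpM]) (norm_of_sphere hp)
    (fun v w hv hw => by
      simp only [sub_apply, pull_apply]
      rw [fderiv_tan hφ hp hv, fderiv_tan hφ hp hw, hφp, h.metric_tan h' hd hp hv hw, sub_self]) v w
  simp only [sub_apply] at key
  linarith

/-- the integral of the normalised trace -/
theorem int_ntr (hn : 3 ≤ Module.finrank ℝ E) (h : Simple g e L) (h' : Simple g' e' L')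
    (hK : IsAlmostKaehler g I) (hK' : IsAlmostKaehler g' I') (hφ : IsBdryMap φ)
    (hφ2 : ContDiff ℝ 2 φ) (hol : IsHolo I I' φ)
    (hd : ∀ p ∈ sphere (0 : E) 1, ∀ q ∈ sphere (0 : E) 1, rho g L p q = rho g' L' p q) :
    ∫ x in closedBall (0 : E) 1, ntr (g x) (pull φ g' x) * dens (g x) = vol g := by
  have hn0 : 0 < Module.finrank ℝ E := by omega
  have hgm := Simple_isMetric h
  have hgm' := Simple_isMetric h'
  set b := stdOrthonormalBasis ℝ E with hb
  have hcard : Fintype.card (Fin (Module.finrank ℝ E)) = Module.finrank ℝ E := Fintype.card_fin _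
  have hg1 : ContDiff ℝ 1 g := h.smooth.of_le (by norm_cast)
  have hg1' : ContDiff ℝ 1 g' := h'.smooth.of_le (by norm_cast)
  have hF := contDiff_fund hg1 hK.smooth
  have hF' := contDiff_fund hg1' hK'.smooth
  have hP := contDiff_pb hF' hφ2
  set Om := op (fund g I) with hOm
  set Th := op (pb (fund g' I') φ) with hTh
  have hOm1 : ContDiff ℝ 1 Om := contDiff_op hF
  have hTh1 : ContDiff ℝ 1 Th := contDiff_op hP
  -- skew symmetry
  have a1 : ∀ x ∈ closedBall (0 : E) 1, ∀ v w, fund g I x v w = - fund g I x w v := fun x hx v w =>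
    fund_anti (h.symm x hx) (hK.sq x hx) (hK.orth x hx) v w
  have a2 : ∀ x ∈ closedBall (0 : E) 1, ∀ v w, fund g' I' x v w = - fund g' I' x w v :=
    fun x hx v w => fund_anti (h'.symm x hx) (hK'.sq x hx) (hK'.orth x hx) v w
  have a3 : ∀ x ∈ closedBall (0 : E) 1, Anti (Om x) := fun x hx => anti_op (a1 x hx)
  have a4 : ∀ x ∈ closedBall (0 : E) 1, Anti (Th x) := fun x hx => anti_op fun v w => by
    rw [pb_apply, pb_apply]; exact a2 _ (hφ.maps hx) _ _
  have ev : ∀ {x : E}, x ∈ ball (0 : E) 1 → ∀ᶠ y in 𝓝 x, y ∈ closedBall (0 : E) 1 := fun hx => by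
    filter_upwards [isOpen_ball.mem_nhds hx] with y hy using ball_subset_closedBall hy
  have a5 : ∀ x ∈ ball (0 : E) 1, ∀ u, Anti (fderiv ℝ Om x u) := fun x hx u =>
    anti_fderiv hOm1 ((ev hx).mono fun y hy => a3 y hy) u
  have a6 : ∀ x ∈ ball (0 : E) 1, ∀ u, Anti (fderiv ℝ Th x u) := fun x hx u =>
    anti_fderiv hTh1 ((ev hx).mono fun y hy => a4 y hy) u
  -- closedness
  have c1 : ∀ x ∈ ball (0 : E) 1, Cl (fderiv ℝ Om x) := fun x hx u v w => by
    rw [fderiv_op hF, fderiv_op hF, fderiv_op hF]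
    exact hK.closed x (ball_subset_closedBall hx) u v w
  have c2 : ∀ x ∈ ball (0 : E) 1, Cl (fderiv ℝ Th x) := fun x hx u v w => by
    rw [fderiv_op hP, fderiv_op hP, fderiv_op hP]
    have hx' := hφ.maps (ball_subset_closedBall hx)
    exact closed_pb hF' hφ2 (a2 _ hx') (hK'.closed _ hx') u v w
  -- the two operators
  have o1 : ∀ x, Om x = gop (g x) ∘L I x := fun x => rfl
  have o2 : ∀ x ∈ closedBall (0 : E) 1, Th x = gop (pull φ g' x) ∘L I x := fun x hx => by
    ext v
    refine ext_inner_right ℝ fun w => ?_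
    rw [hTh, op, inner_gop, ContinuousLinearMap.comp_apply, inner_gop, pull_apply, pb_apply,
      hol x hx]
    rfl
  have u1 : ∀ x ∈ closedBall (0 : E) 1, IsUnit (Om x) := fun x hx => by
    rw [o1]
    exact (unit_G (h.pos x hx)).mul (unit_I (hK.sq x hx))
  -- the identity
  have key := int_contr (b := b) (by rw [hcard]; exact hn) (W := wt Om) (B := fun x => Th x - Om x)
    (fun x hx => contDiffAt_wt b hOm1.contDiffAt (u1 x hx))
    (fun x hx => by
      obtain ⟨u, hu⟩ := u1 x hx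
      have h1 := anti_inv (a3 x hx) u hu
      intro v w
      rw [wt, ← hu, Ring.inverse_unit, smul_apply, smul_apply, inner_smul_left, inner_smul_right,
        h1 v w]
      simp)
    (fun x hx z => div_wt b hOm1.contDiffAt (u1 x (ball_subset_closedBall hx))
      (a3 x (ball_subset_closedBall hx)) (a5 x hx) (c1 x hx) z)
    (fun x _ => (hTh1.sub hOm1).contDiffAt)
    (fun x hx u => by
      have : fderiv ℝ (fun x => Th x - Om x) x = fderiv ℝ Th x - fderiv ℝ Om x :=
        fderiv_fun_sub (hTh1.differentiable (by norm_num) x) (hOm1.differentiable (by norm_num) x)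
      intro v w
      rw [this]
      simp only [sub_apply, inner_sub_left, inner_sub_right]
      rw [a5 x hx u v w, a6 x hx u v w]
      ring)
    (fun x hx u v w => by
      have : fderiv ℝ (fun x => Th x - Om x) x = fderiv ℝ Th x - fderiv ℝ Om x :=
        fderiv_fun_sub (hTh1.differentiable (by norm_num) x) (hOm1.differentiable (by norm_num) x)
      rw [this]
      simp only [sub_apply, inner_sub_left]
      have h1 := c1 x hx u v w
      have h2 := c2 x hx u v w
      linarith)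
    (fun x hx => by
      have hxM := mem_of_sphere hx
      rw [o1, o2 x hxM, ← ContinuousLinearMap.sub_comp]
      have : gop (pull φ g' x) = gop (g x) := by
        congr 1
        ext v w
        exact pull_bdry h h' hK hK' hφ hol hd hx v w
      rw [this, sub_self, ContinuousLinearMap.zero_comp])
  have p1 : ∀ x ∈ closedBall (0 : E) 1, tr b (wt Om x ∘L (Th x - Om x)) =
      Module.finrank ℝ E * (ntr (g x) (pull φ g' x) * dens (g x) - dens (g x)) := by
    intro x hx
    obtain ⟨uI, hI⟩ := unit_I (hK.sq x hx)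
    obtain ⟨uG, hG⟩ := unit_G (h.pos x hx)
    have hdet : 0 < (gram (g x)).det := (frame hgm hx).choose_spec.2.2
    have e1 := tr_quot (B := g x) (C := pull φ g' x) uI uG hG hn0
    have e2 := tr_quot (B := g x) (C := g x) uI uG hG hn0
    rw [ntr_self hn0 hgm hx] at e2
    have e3 : pf (Om x) = dens (g x) := by rw [o1]; exact pf_op (hK.sq x hx) hdet
    rw [wt, e3, ContinuousLinearMap.smul_comp, tr_smul, ContinuousLinearMap.comp_sub]
    have e4 : tr b (Ring.inverse (Om x) ∘L Th x - Ring.inverse (Om x) ∘L Om x) =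
        tr b (Ring.inverse (Om x) ∘L Th x) - tr b (Ring.inverse (Om x) ∘L Om x) := by
      rw [sub_eq_add_neg, tr_add, ← neg_one_smul ℝ, tr_smul]; ring
    rw [e4, o2 x hx, o1, ← hI, hb, e1, e2]
    ring
  rw [setIntegral_congr_fun measurableSet_closedBall p1, integral_const_mul] at key
  have hn' : (Module.finrank ℝ E : ℝ) ≠ 0 := by exact_mod_cast hn0.ne'
  have key2 := (mul_eq_zero.1 key).resolve_left hn'
  have hcd := (continuous_dens hgm.cont).continuousOn (s := closedBall (0 : E) 1)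
  have i1 : IntegrableOn (fun x => ntr (g x) (pull φ g' x) * dens (g x)) (closedBall (0 : E) 1) :=
    intOn ((continuousOn_ntr hgm (continuous_pull hgm'.cont hφ.smooth)).mul hcd)
  rw [integral_sub i1 (intOn hcd)] at key2
  rw [vol]
  linarith

/-- the main theorem -/
theorem main (hn : 3 ≤ Module.finrank ℝ E) (hg : IsSimpleM g) (hg' : IsSimpleM g')
    (hK : IsAlmostKaehler g I) (hK' : IsAlmostKaehler g' I') (hφ : IsBdryMap φ)
    (hφ2 : ContDiff ℝ 2 φ) (hol : IsHolo I I' φ) (hd : BdryLE g g') (hd' : BdryLE g' g) :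
    IsIsometric g g' φ ∧ RelIsometric g g' := by
  obtain ⟨e, L, h⟩ := hg
  obtain ⟨e', L', h'⟩ := hg'
  have hn0 : 0 < Module.finrank ℝ E := by omega
  have hgd : ∀ p ∈ sphere (0 : E) 1, ∀ q ∈ sphere (0 : E) 1, gdist g p q = gdist g' p q := by
    intro p hp q hq
    have h1 := hd p hp q hq
    have h2 := hd' p hp q hq
    rw [gd_eq, gd_eq] at h1 h2
    exact le_antisymm h1 h2
  have hrho := rho_of_gdist h h' hgd
  have hi := int_ntr hn h h' hK hK' hφ hφ2 hol hrho
  have he : energy 2 g g' φ ≤ vol g := by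
    rw [energy, ← hi]
    refine le_of_eq (setIntegral_congr_fun measurableSet_closedBall fun x _ => ?_)
    norm_num
  have hiso : IsIsometric g g' φ :=
    energy_eq hn0 h (Simple_isMetric h') hφ (fun p hp q hq => (hgd p hp q hq).le) one_lt_two he
  refine ⟨hiso, ?_⟩
  have hB := mainB (g := g) (g' := g') (by omega) ⟨e, L, h⟩ ⟨e', L', h'⟩ hd hd'
  exact hB.2.1.2 ⟨φ, hφ, (total_of_iso hn0 (Simple_isMetric h) hiso).le⟩

end Pool.Agent.H85.KA
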